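import Pool.Agent.W544.FF.Defs

/-!
# Project FF, part GIN: products of pairings are invariant under the orthogonal group
-/

set_option autoImplicit false

open Matrix Finset Module

namespace Pool.Agent.W701.FF.Gin

open Pool.Agent.W544.PG Pool.Agent.W544.FF

noncomputable section

/-- the representatives of the pairs -/
abbrev Rep {k : ℕ} (σ : Fin k → Fin k) : Type := {j : Fin k // j < σ j}

theorem rep_bij {k : ℕ} {σ : Fin k → Fin k} (hσ : Mat k σ) :
    Function.Bijective (Sum.elim (fun p : Rep σ => p.1) (fun p : Rep σ => σ p.1)) := by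
  constructor
  · rintro (p | p) (q | q) h
    · simp only [Sum.elim_inl] at h
      rw [Subtype.ext h]
    · simp only [Sum.elim_inl, Sum.elim_inr] at h
      exfalso
      have h1 := p.2
      have h2 := q.2
      rw [h, hσ.1] at h1
      exact absurd (lt_trans h1 h2) (lt_irrefl _)
    · simp only [Sum.elim_inl, Sum.elim_inr] at h
      exfalso
      have h1 := p.2
      have h2 := q.2
      rw [← h, hσ.1] at h2
      exact absurd (lt_trans h1 h2) (lt_irrefl _)
    · simp only [Sum.elim_inr] at h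
      have h3 : p.1 = q.1 := by
        have := congrArg σ h
        rwa [hσ.1, hσ.1] at this
      rw [Subtype.ext h3]
  · intro j
    rcases lt_trichotomy j (σ j) with h | h | h
    · exact ⟨Sum.inl ⟨j, h⟩, rfl⟩
    · exact absurd h.symm (hσ.2 j)
    · refine ⟨Sum.inr ⟨σ j, ?_⟩, ?_⟩
      · rw [hσ.1]; exact h
      · simp only [Sum.elim_inr]
        exact hσ.1 j

/-- the slots as pairs -/
def eR {k : ℕ} {σ : Fin k → Fin k} (hσ : Mat k σ) : Rep σ ⊕ Rep σ ≃ Fin k :=
  Equiv.ofBijective _ (rep_bij hσ)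

theorem prod_split {k : ℕ} {σ : Fin k → Fin k} (hσ : Mat k σ) (h : Fin k → ℝ) :
    ∏ j, h j = (∏ p : Rep σ, h p.1) * ∏ p : Rep σ, h (σ p.1) := by
  rw [← (eR hσ).prod_comp h, Fintype.prod_sum_type]
  rfl

/-- functions on the slots as pairs of functions on the representatives -/
def eF {k : ℕ} {σ : Fin k → Fin k} (hσ : Mat k σ) (α : Type) :
    (Rep σ → α) × (Rep σ → α) ≃ (Fin k → α) :=
  (Equiv.sumArrowEquivProdArrow (Rep σ) (Rep σ) α).symm.trans
    (Equiv.arrowCongr (eR hσ) (Equiv.refl α))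

theorem eF_inl {k : ℕ} {σ : Fin k → Fin k} (hσ : Mat k σ) {α : Type}
    (A B : Rep σ → α) (p : Rep σ) : eF hσ α (A, B) p.1 = A p := by
  have h : (eR hσ).symm p.1 = Sum.inl p := by
    rw [Equiv.symm_apply_eq]
    rfl
  simp [eF, Equiv.arrowCongr, h]

theorem eF_inr {k : ℕ} {σ : Fin k → Fin k} (hσ : Mat k σ) {α : Type}
    (A B : Rep σ → α) (p : Rep σ) : eF hσ α (A, B) (σ p.1) = B p := by
  have h : (eR hσ).symm (σ p.1) = Sum.inr p := by
    rw [Equiv.symm_apply_eq]
    rfl
  simp [eF, Equiv.arrowCongr, h]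

theorem filter_prod {k : ℕ} (σ : Fin k → Fin k) (u : Fin k → ℝ) :
    (∏ j with j < σ j, u j) = ∏ p : Rep σ, u p.1 := by
  refine Finset.prod_subtype _ ?_ u
  intro x
  simp

theorem key {n k : ℕ} {σ : Fin k → Fin k} (hσ : Mat k σ) (R : Matrix (Fin n) (Fin n) ℝ)
    (hR : Rᵀ * R = 1) (J : Fin k → Fin n) :
    ∑ K : Fin k → Fin n, (∏ j, R (K j) (J j)) *
      (∏ j with j < σ j, if K j = K (σ j) then (1 : ℝ) else 0) =
    ∏ j with j < σ j, if J j = J (σ j) then (1 : ℝ) else 0 := by
  rw [← (eF hσ (Fin n)).sum_comp, filter_prod σ, Fintype.sum_prod_type]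
  have h1 : ∀ (A B : Rep σ → Fin n),
      (∏ j, R (eF hσ (Fin n) (A, B) j) (J j)) *
        (∏ j with j < σ j, if eF hσ (Fin n) (A, B) j = eF hσ (Fin n) (A, B) (σ j)
          then (1 : ℝ) else 0) =
      ∏ p : Rep σ, (R (A p) (J p.1) * R (B p) (J (σ p.1)) *
        (if A p = B p then (1 : ℝ) else 0)) := by
    intro A B
    rw [prod_split hσ, filter_prod σ, Finset.prod_mul_distrib, Finset.prod_mul_distrib]
    simp only [eF_inl, eF_inr]
  simp only [h1]
  have h2 : ∀ A : Rep σ → Fin n, ∑ B : Rep σ → Fin n,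
      ∏ p : Rep σ, (R (A p) (J p.1) * R (B p) (J (σ p.1)) *
        (if A p = B p then (1 : ℝ) else 0)) =
      ∏ p : Rep σ, (R (A p) (J p.1) * R (A p) (J (σ p.1))) := by
    intro A
    rw [← Fintype.prod_sum (fun (p : Rep σ) (b : Fin n) => R (A p) (J p.1) * R b (J (σ p.1)) *
        (if A p = b then (1 : ℝ) else 0))]
    refine Finset.prod_congr rfl fun p _ => ?_
    rw [Finset.sum_eq_single (A p)]
    · simp
    · intro b _ hb
      rw [if_neg (fun h => hb h.symm), mul_zero]
    · intro h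
      exact absurd (Finset.mem_univ _) h
  simp only [h2]
  rw [← Fintype.prod_sum (fun (p : Rep σ) (a : Fin n) => R a (J p.1) * R a (J (σ p.1)))]
  refine Finset.prod_congr rfl fun p _ => ?_
  have h3 : (Rᵀ * R) (J p.1) (J (σ p.1)) = ∑ a, R a (J p.1) * R a (J (σ p.1)) := by
    rw [Matrix.mul_apply]
    rfl
  rw [← h3, hR, Matrix.one_apply]

theorem gin : S_gin := by
  intro n r k c σ f hσ R hR hBD
  funext J
  unfold pull genO
  have h1 : ∀ K : Fin k → Fin n, (∏ j, R (K j) (J j)) * ((if ∀ j, c (K j) = f j then (1 : ℝ) else 0) *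
      ∏ j with j < σ j, if K j = K (σ j) then (1 : ℝ) else 0) =
      (if ∀ j, c (J j) = f j then (1 : ℝ) else 0) * ((∏ j, R (K j) (J j)) *
        ∏ j with j < σ j, if K j = K (σ j) then (1 : ℝ) else 0) := by
    intro K
    by_cases h : ∀ j, c (K j) = c (J j)
    · have h2 : (∀ j, c (K j) = f j) ↔ (∀ j, c (J j) = f j) := by
        constructor
        · intro h3 j
          rw [← h j, h3 j]
        · intro h3 j
          rw [h j, h3 j]
      simp only [h2]
      ring
    · push Not at h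
      obtain ⟨j, hj⟩ := h
      have h4 : (∏ j, R (K j) (J j)) = 0 :=
        Finset.prod_eq_zero (Finset.mem_univ j) (hBD _ _ hj)
      rw [h4]
      ring
  simp only [h1]
  rw [← Finset.mul_sum, key hσ R hR J]

end

end Pool.Agent.W701.FF.Gin
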